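import Mathlib

set_option autoImplicit false

open Topology Set Filter

namespace Pool.Agent.Results.MP_4b6139_gt.CechCompleteCounterexample

universe u v w

/-- `A ⊆ X` is P-embedded in `X`: every continuous map from `A` (subspace topology) to a
Banach space extends to a continuous map on `X`. -/
def PEmbedded {X : Type u} [TopologicalSpace X] (A : Set X) : Prop :=
  ∀ (E : Type v) [NormedAddCommGroup E] [NormedSpace ℝ E] [CompleteSpace E] (f : A → E),
    Continuous f → ∃ F : X → E, Continuous F ∧ ∀ a : A, F a = f a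

/-- A space is Čech-complete: it is Tychonoff and a `G_δ` subset of its Stone-Čech
compactification. -/
def CechComplete (Z : Type u) [TopologicalSpace Z] : Prop :=
  T35Space Z ∧ IsGδ (range (stoneCechUnit : Z → StoneCech Z))

/-! ### Closed subsets of paracompact Hausdorff spaces are P-embedded -/

section Extension

variable {X : Type u} {E : Type v} [TopologicalSpace X] [NormedAddCommGroup E] [NormedSpace ℝ E]

lemma approx [NormalSpace X] [ParacompactSpace X] {A : Set X} (hA : IsClosed A)
    {S : Set E} (hS : Convex ℝ S) (h0 : (0 : E) ∈ S) (f : A → E) (hf : Continuous f)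
    (hfS : ∀ a, f a ∈ S) {ε : ℝ} (hε : 0 < ε) :
    ∃ F : C(X, E), (∀ x, F x ∈ S) ∧ ∀ a : A, ‖f a - F a‖ < ε := by
  classical
  let t : X → Set E := fun x => S ∩ {z | ∀ h : x ∈ A, ‖f ⟨x, h⟩ - z‖ < ε}
  have ht : ∀ x, Convex ℝ (t x) := by
    intro x
    refine hS.inter ?_
    by_cases hx : x ∈ A
    · have : {z : E | ∀ h : x ∈ A, ‖f ⟨x, h⟩ - z‖ < ε} = Metric.ball (f ⟨x, hx⟩) ε := by
        ext z
        simp only [Metric.mem_ball, dist_eq_norm]
        constructor
        · intro h
          rw [norm_sub_rev]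
          exact h hx
        · intro h _
          rw [norm_sub_rev]
          exact h
      rw [this]
      exact convex_ball _ _
    · have : {z : E | ∀ h : x ∈ A, ‖f ⟨x, h⟩ - z‖ < ε} = univ := by
        ext z
        simp only [mem_univ, iff_true]
        intro h
        exact absurd h hx
      rw [this]
      exact convex_univ
  have H : ∀ x : X, ∃ c : E, ∀ᶠ y in 𝓝 x, c ∈ t y := by
    intro x
    by_cases hx : x ∈ A
    · refine ⟨f ⟨x, hx⟩, ?_⟩
      have hcont : ∀ᶠ a : A in 𝓝 (⟨x, hx⟩ : A), ‖f a - f ⟨x, hx⟩‖ < ε := by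
        have h1 : Tendsto (fun a : A => ‖f a - f ⟨x, hx⟩‖) (𝓝 (⟨x, hx⟩ : A)) (𝓝 0) := by
          have h2 : Continuous fun a : A => ‖f a - f ⟨x, hx⟩‖ :=
            (hf.sub continuous_const).norm
          have h3 := h2.tendsto (⟨x, hx⟩ : A)
          simpa using h3
        exact h1.eventually (gt_mem_nhds hε)
      rw [nhds_subtype_eq_comap, eventually_comap] at hcont
      filter_upwards [hcont] with y hy
      refine ⟨hfS _, fun h => ?_⟩
      exact hy ⟨y, h⟩ rfl
    · refine ⟨0, ?_⟩
      filter_upwards [hA.isOpen_compl.mem_nhds hx] with y hy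
      exact ⟨h0, fun h => absurd h hy⟩
  obtain ⟨F, hF⟩ := exists_continuous_forall_mem_convex_of_local_const (X := X) (E := E) ht H
  exact ⟨F, fun x => (hF x).1, fun a => (hF a).2 a.2⟩

/-- Dowker's theorem (paracompact case): a closed subset of a paracompact Hausdorff space is
P-embedded. -/
theorem pEmbedded_of_isClosed [T2Space X] [ParacompactSpace X] {A : Set X} (hA : IsClosed A) :
    PEmbedded.{u, v} A := by
  intro E _ _ _ f hf
  -- first step: distance `< 1`
  obtain ⟨F₀, -, hF₀⟩ := approx (S := (univ : Set E)) hA convex_univ (mem_univ _) f hf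
    (fun _ => mem_univ _) one_pos
  -- iteration
  have step : ∀ (n : ℕ) (g : A → E), Continuous g → (∀ a, ‖g a‖ ≤ (1 / 2 : ℝ) ^ n) →
      ∃ F : C(X, E), (∀ x, ‖F x‖ ≤ (1 / 2 : ℝ) ^ n) ∧
        ∀ a : A, ‖g a - F a‖ ≤ (1 / 2 : ℝ) ^ (n + 1) := by
    intro n g hg hgb
    obtain ⟨F, hF1, hF2⟩ := approx (S := Metric.closedBall (0 : E) ((1 / 2 : ℝ) ^ n)) hA
      (convex_closedBall _ _) (by simp) g hg (fun a => by simpa using hgb a)
      (show (0 : ℝ) < (1 / 2 : ℝ) ^ (n + 1) by positivity)
    exact ⟨F, fun x => by simpa using hF1 x, fun a => (hF2 a).le⟩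
  choose! Φ hΦ1 hΦ2 using step
  -- the sequence of remainders
  let R : ℕ → (A → E) := fun n => Nat.rec (fun a => f a - F₀ a) (fun k g => fun a => g a - Φ k g a) n
  have hR0 : R 0 = fun a => f a - F₀ a := rfl
  have hRs : ∀ n, R (n + 1) = fun a => R n a - Φ n (R n) a := fun n => rfl
  have hR : ∀ n, Continuous (R n) ∧ ∀ a, ‖R n a‖ ≤ (1 / 2 : ℝ) ^ n := by
    intro n
    induction n with
    | zero =>
      refine ⟨?_, ?_⟩
      · rw [hR0]
        exact hf.sub (F₀.continuous.comp continuous_subtype_val)
      · intro a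
        rw [hR0]
        simpa using (hF₀ a).le
    | succ n ih =>
      refine ⟨?_, ?_⟩
      · rw [hRs]
        exact ih.1.sub ((Φ n (R n)).continuous.comp continuous_subtype_val)
      · intro a
        rw [hRs]
        exact hΦ2 n (R n) ih.1 ih.2 a
  have hsum : Summable fun n : ℕ => (1 / 2 : ℝ) ^ n := summable_geometric_two
  refine ⟨fun x => F₀ x + ∑' n, Φ n (R n) x, ?_, ?_⟩
  · refine F₀.continuous.add ?_
    exact continuous_tsum (fun n => (Φ n (R n)).continuous) hsum
      (fun n x => hΦ1 n (R n) (hR n).1 (hR n).2 x)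
  · intro a
    have hsm : Summable fun n => Φ n (R n) (a : X) :=
      Summable.of_norm_bounded hsum (fun n => hΦ1 n (R n) (hR n).1 (hR n).2 _)
    have hpart : ∀ n, ∑ i ∈ Finset.range n, Φ i (R i) (a : X) = R 0 a - R n a := by
      intro n
      induction n with
      | zero => simp
      | succ n ih =>
        rw [Finset.sum_range_succ, ih, hRs]
        exact sub_add _ _ _
    have hlim : Tendsto (fun n => ∑ i ∈ Finset.range n, Φ i (R i) (a : X)) atTop (𝓝 (R 0 a)) := by
      have h0 : Tendsto (fun n => R n a) atTop (𝓝 0) := by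
        refine squeeze_zero_norm (fun n => (hR n).2 a) ?_
        exact tendsto_pow_atTop_nhds_zero_of_lt_one (by norm_num) (by norm_num)
      have h1 : Tendsto (fun n => R 0 a - R n a) atTop (𝓝 (R 0 a - 0)) :=
        tendsto_const_nhds.sub h0
      rw [sub_zero] at h1
      refine h1.congr fun n => (hpart n).symm
    have hfin := tendsto_nhds_unique hsm.hasSum.tendsto_sum_nat hlim
    change F₀ (a : X) + ∑' n, Φ n (R n) (a : X) = f a
    rw [hfin, hR0]
    exact add_sub_cancel _ _

end Extension

/-! ### A criterion for Čech-completeness -/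

theorem cechComplete_of_embedding {Z : Type u} {C : Type v} [TopologicalSpace Z]
    [TopologicalSpace C] [CompactSpace C] [T2Space C] (e : Z → C) (he : IsEmbedding e)
    (G : Set C) (hG : IsGδ G) (h1 : range e ⊆ G) (h2 : closure (range e) ∩ G ⊆ range e) :
    CechComplete Z := by
  have : T35Space Z := he.t35Space
  refine ⟨inferInstance, ?_⟩
  have hc := he.continuous
  let ê : StoneCech Z → C := stoneCechExtend hc
  have hê : Continuous ê := continuous_stoneCechExtend hc
  have hext : ∀ z, ê (stoneCechUnit z) = e z := fun z => stoneCechExtend_stoneCechUnit hc z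
  have key : range (stoneCechUnit : Z → StoneCech Z) = ê ⁻¹' G := by
    apply Subset.antisymm
    · rintro _ ⟨z, rfl⟩
      rw [mem_preimage, hext]
      exact h1 ⟨z, rfl⟩
    · intro p hp
      have hcl : ê p ∈ closure (range e) := by
        have h3 : p ∈ closure (range (stoneCechUnit : Z → StoneCech Z)) :=
          denseRange_stoneCechUnit p
        have h4 := map_mem_closure hê h3 (t := range e) ?_
        · exact h4
        · rintro _ ⟨z, rfl⟩
          exact ⟨z, (hext z).symm⟩
      obtain ⟨a, ha⟩ := h2 ⟨hcl, hp⟩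
      by_contra hpr
      have hne : p ≠ stoneCechUnit a := by
        rintro rfl
        exact hpr ⟨a, rfl⟩
      obtain ⟨U, V, hU, hV, hpU, haV, hUV⟩ := t2_separation hne
      -- `stoneCechUnit ⁻¹' V` is a neighbourhood of `a` in `Z`, hence `e ⁻¹' W`
      have hVa : IsOpen ((stoneCechUnit : Z → StoneCech Z) ⁻¹' V) :=
        hV.preimage continuous_stoneCechUnit
      obtain ⟨W, hW, hWV⟩ := he.isInducing.isOpen_iff.1 hVa
      have haW : e a ∈ W := by
        have : a ∈ e ⁻¹' W := by
          rw [hWV]
          exact haV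
        exact this
      have hpW : p ∈ ê ⁻¹' W ∩ U := ⟨by rw [mem_preimage, ← ha]; exact haW, hpU⟩
      obtain ⟨_, ⟨hz1, hz2⟩, ⟨z, rfl⟩⟩ := (denseRange_stoneCechUnit (α := Z)).inter_open_nonempty _
        ((hW.preimage hê).inter hU) ⟨p, hpW⟩
      have hz3 : z ∈ e ⁻¹' W := by
        rw [mem_preimage, hext] at hz1
        exact hz1
      rw [hWV] at hz3
      exact disjoint_left.1 hUV hz2 hz3
  rw [key]
  exact hG.preimage hê

/-! ### The spaces -/

/-- The space of irrational numbers. -/
abbrev P : Type := {x : ℝ // Irrational x}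

/-- The set of irrational numbers with the discrete topology. -/
def D : Type := P

instance : TopologicalSpace D := ⊥

instance : DiscreteTopology D := ⟨rfl⟩

/-- The one-point compactification of the discrete space `D`. -/
abbrev K : Type := OnePoint D

/-- The point of `K` given by an irrational number. -/
def pt (d : P) : K := ((show D from d : D) : OnePoint D)

/-- The subset `{(∞, b)} ∪ {(b, b)}` of `K × P` (the Alexandroff duplicate of `P`). -/
def A : Set (K × P) := {p | ∀ d : P, p.1 = pt d → d = p.2}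

/-- The underlying set of the Michael line. -/
def Y : Type := ℝ

/-- The point of the Michael line given by a real number. -/
def yo (x : ℝ) : Y := x

/-- The real number underlying a point of the Michael line. -/
def yr (y : Y) : ℝ := y

open Classical in
/-- The map which induces the topology of the Michael line. -/
noncomputable def toProd (x : ℝ) : ℝ × (P → Bool) := (x, fun d => decide (x = d))

/-- The topology of the Michael line: irrational points are made isolated. -/
noncomputable instance : TopologicalSpace Y :=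
  TopologicalSpace.induced (fun y : Y => toProd (yr y)) inferInstance

lemma toProd_injective : Function.Injective toProd := fun _ _ h => congrArg Prod.fst h

lemma isEmbedding_toProd : IsEmbedding (fun y : Y => toProd (yr y)) :=
  ⟨⟨rfl⟩, fun _ _ h => toProd_injective h⟩

instance : T35Space Y := isEmbedding_toProd.t35Space

lemma continuous_yr : Continuous yr :=
  continuous_fst.comp isEmbedding_toProd.continuous

lemma isClopen_point (d : P) : IsClopen {y : Y | yr y = d} := by
  classical
  have h1 : Continuous fun y : Y => (toProd (yr y)).2 d :=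
    (continuous_apply d).comp (continuous_snd.comp isEmbedding_toProd.continuous)
  have h2 : {y : Y | yr y = d} = (fun y : Y => (toProd (yr y)).2 d) ⁻¹' {true} := by
    ext y
    simp [toProd]
  rw [h2]
  exact (isClopen_discrete _).preimage h1

lemma tendsto_yo (q : ℝ) (hq : ¬ Irrational q) : Tendsto yo (𝓝 q) (𝓝 (yo q)) := by
  classical
  rw [isEmbedding_toProd.tendsto_nhds_iff]
  have : ContinuousAt toProd q := by
    refine ContinuousAt.prodMk continuousAt_id ?_
    rw [continuousAt_pi]
    intro d
    have hne : q ≠ (d : ℝ) := by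
      rintro rfl
      exact hq d.2
    have hev : ∀ᶠ x in 𝓝 q, x ≠ (d : ℝ) := isOpen_ne.mem_nhds hne
    refine ContinuousAt.congr (f := fun _ => false) continuousAt_const ?_
    filter_upwards [hev] with x hx
    simp [hx]
  exact this

lemma isOpen_pt (d : P) : IsOpen ({pt d} : Set K) := by
  have : ({pt d} : Set K) = (fun x : D => (x : OnePoint D)) '' {(show D from d : D)} := by
    rw [image_singleton]
    rfl
  rw [this]
  exact OnePoint.isOpen_image_coe.2 (isOpen_discrete _)

lemma isClosed_pt (d : P) : IsClosed ({pt d} : Set K) := isClosed_singleton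

lemma pt_injective : Function.Injective pt := fun _ _ h => OnePoint.coe_injective h

lemma eq_infty_or (k : K) : k = OnePoint.infty ∨ ∃ d, k = pt d := by
  induction k using OnePoint.rec with
  | infty => exact Or.inl rfl
  | coe d => exact Or.inr ⟨d, rfl⟩

lemma infty_mem_A (b : P) : ((OnePoint.infty : K), b) ∈ A := by
  intro d h
  exact absurd h (OnePoint.infty_ne_coe _)

lemma pt_mem_A (b : P) : (pt b, b) ∈ A := by
  intro d h
  exact pt_injective h.symm

lemma isClosed_A : IsClosed A := by
  have : A = ⋂ d : P, ({p : K × P | p.1 = pt d}ᶜ ∪ {p | p.2 = d}) := by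
    ext p
    simp only [A, mem_iInter, mem_union, mem_compl_iff]
    constructor
    · intro h d
      by_cases hd : p.1 = pt d
      · exact Or.inr (h d hd).symm
      · exact Or.inl hd
    · intro h d hd
      rcases h d with h' | h'
      · exact absurd hd h'
      · exact h'.symm
  rw [this]
  refine isClosed_iInter fun d => IsClosed.union ?_ ?_
  · rw [isClosed_compl_iff]
    exact (isOpen_pt d).preimage continuous_fst
  · exact isClosed_singleton.preimage continuous_snd

/-- The irrationals form a Polish space. -/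
theorem polishSpace_P : PolishSpace P := by
  let φ : P → ℝ × (ℚ → ℝ) := fun x => ((x : ℝ), fun q => ((x : ℝ) - q)⁻¹)
  have hne : ∀ (x : P) (q : ℚ), (x : ℝ) - q ≠ 0 := fun x q h => x.2 ⟨q, (sub_eq_zero.1 h).symm⟩
  have hφc : Continuous φ := by
    refine continuous_subtype_val.prodMk (continuous_pi fun q => ?_)
    exact (continuous_subtype_val.sub continuous_const).inv₀ fun x => hne x q
  have hind : IsInducing φ := by
    refine IsInducing.of_comp hφc continuous_fst ?_
    exact IsInducing.subtypeVal
  have hinj : Function.Injective φ := fun x y h => Subtype.ext (congrArg Prod.fst h)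
  have hrange : range φ = {z : ℝ × (ℚ → ℝ) | ∀ q : ℚ, z.2 q * (z.1 - q) = 1} := by
    ext z
    constructor
    · rintro ⟨x, rfl⟩ q
      exact inv_mul_cancel₀ (hne x q)
    · intro hz
      have hirr : Irrational z.1 := by
        rintro ⟨q, hq⟩
        have := hz q
        rw [hq, sub_self, mul_zero] at this
        exact zero_ne_one this
      refine ⟨⟨z.1, hirr⟩, ?_⟩
      refine Prod.ext rfl (funext fun q => ?_)
      exact (eq_inv_of_mul_eq_one_left (hz q)).symm
  have hcl : IsClosed (range φ) := by
    rw [hrange, ofPred_forall]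
    refine isClosed_iInter fun q => ?_
    refine isClosed_eq ?_ continuous_const
    exact ((continuous_apply q).comp continuous_snd).mul (continuous_fst.sub continuous_const)
  exact IsClosedEmbedding.polishSpace ⟨⟨hind, hinj⟩, hcl⟩

theorem cechComplete_A : CechComplete A := by
  let e : A → K × OnePoint ℝ := fun p => (p.1.1, ((p.1.2 : ℝ) : OnePoint ℝ))
  let j : K × P → K × OnePoint ℝ := Prod.map id (fun x : P => (((x : ℝ) : OnePoint ℝ)))
  have hj : IsEmbedding j := by
    refine IsEmbedding.prodMap IsEmbedding.id ?_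
    exact OnePoint.isOpenEmbedding_coe.isEmbedding.comp IsEmbedding.subtypeVal
  have he : IsEmbedding e := hj.comp IsEmbedding.subtypeVal
  let G₀ : Set (OnePoint ℝ) := (fun x : ℝ => (x : OnePoint ℝ)) '' {x | Irrational x}
  have hG₀ : IsGδ G₀ := by
    obtain ⟨U, hU, hU'⟩ := isGδ_iff_eq_iInter_nat.1 IsGδ.setOfPred_irrational
    have : G₀ = ⋂ n, (fun x : ℝ => (x : OnePoint ℝ)) '' (U n) := by
      rw [← OnePoint.coe_injective.injOn.image_iInter_eq]
      rw [← hU']
    rw [this]
    exact IsGδ.iInter_of_isOpen fun n => OnePoint.isOpen_image_coe.2 (hU n)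
  refine cechComplete_of_embedding e he (Prod.snd ⁻¹' G₀) (hG₀.preimage continuous_snd) ?_ ?_
  · rintro _ ⟨p, rfl⟩
    exact ⟨_, p.1.2.2, rfl⟩
  · rintro ⟨k, z⟩ ⟨hz1, x, hx, rfl⟩
    have hmem : ((k, (⟨x, hx⟩ : P)) : K × P) ∈ closure A := by
      rw [hj.closure_eq_preimage_closure_image]
      refine closure_mono ?_ hz1
      rintro _ ⟨p, rfl⟩
      exact ⟨p.1, p.2, rfl⟩
    rw [isClosed_A.closure_eq] at hmem
    exact ⟨⟨_, hmem⟩, rfl⟩

/-! ### The function without extension -/

/-- The set of `((k, b), y)` such that `k` is the irrational number `y`. -/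
def S : Set ((K × P) × Y) := {p | ∃ d : P, p.1.1 = pt d ∧ yr p.2 = d}

lemma isOpen_S : IsOpen S := by
  have : S = ⋃ d : P, ((fun p : (K × P) × Y => p.1.1) ⁻¹' {pt d}) ∩
      ((fun p : (K × P) × Y => p.2) ⁻¹' {y | yr y = d}) := by
    ext p
    simp only [S, mem_iUnion]
    rfl
  rw [this]
  exact isOpen_iUnion fun d => ((isOpen_pt d).preimage (continuous_fst.comp continuous_fst)).inter
    ((isClopen_point d).isOpen.preimage continuous_snd)

lemma eventually_notMem_S (p : (K × P) × Y) (hp : p ∉ S) :
    ∀ᶠ q in 𝓝 p, q ∈ A ×ˢ (univ : Set Y) → q ∉ S := by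
  by_cases hy : Irrational (yr p.2)
  · have h1 : p.1.1 ≠ pt ⟨yr p.2, hy⟩ := fun h => hp ⟨⟨yr p.2, hy⟩, h, rfl⟩
    have h2 : IsOpen ({q : (K × P) × Y | q.1.1 ≠ pt ⟨yr p.2, hy⟩} ∩
        ((fun q : (K × P) × Y => q.2) ⁻¹' {y | yr y = (⟨yr p.2, hy⟩ : P)})) :=
      ((isClosed_pt _).isOpen_compl.preimage (continuous_fst.comp continuous_fst)).inter
        ((isClopen_point _).isOpen.preimage continuous_snd)
    filter_upwards [h2.mem_nhds ⟨h1, rfl⟩] with q hq _ hqS
    obtain ⟨d, hd1, hd2⟩ := hqS
    refine hq.1 ?_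
    rw [hd1]
    congr 1
    exact Subtype.ext (hd2.symm.trans hq.2)
  · have h1 : yr p.2 ≠ (p.1.2 : ℝ) := by
      intro h
      exact hy (h ▸ p.1.2.2)
    have h2 : IsOpen {q : (K × P) × Y | yr q.2 ≠ (q.1.2 : ℝ)} :=
      isOpen_ne_fun (continuous_yr.comp continuous_snd)
        (continuous_subtype_val.comp (continuous_snd.comp continuous_fst))
    filter_upwards [h2.mem_nhds h1] with q hq hqA hqS
    obtain ⟨d, hd1, hd2⟩ := hqS
    refine hq ?_
    rw [hd2]
    exact congrArg Subtype.val (hqA.1 d hd1)

open Classical in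
/-- The characteristic function of `S` restricted to `A × Y`. -/
noncomputable def g (p : ↥(A ×ˢ (univ : Set Y))) : ℝ := if (p : (K × P) × Y) ∈ S then 1 else 0

lemma continuous_g : Continuous g := by
  rw [continuous_iff_continuousAt]
  intro p
  by_cases hp : (p : (K × P) × Y) ∈ S
  · refine ContinuousAt.congr (f := fun _ => 1) continuousAt_const ?_
    filter_upwards [(isOpen_S.preimage continuous_subtype_val).mem_nhds hp] with q hq
    exact (if_pos hq).symm
  · refine ContinuousAt.congr (f := fun _ => 0) continuousAt_const ?_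
    have h := eventually_notMem_S _ hp
    have h' := (continuous_subtype_val (p := fun q => q ∈ A ×ˢ (univ : Set Y))).tendsto p
    filter_upwards [h'.eventually h] with q hq
    exact (if_neg (hq q.2)).symm

theorem no_extension (G : (K × P) × Y → ℝ) (hG : Continuous G)
    (hext : ∀ p : ↥(A ×ˢ (univ : Set Y)), G p = g p) : False := by
  classical
  have hG1 : ∀ k : P, G ((pt k, k), yo k) = 1 := by
    intro k
    rw [hext ⟨((pt k, k), yo k), pt_mem_A k, mem_univ _⟩]
    exact if_pos ⟨k, rfl, rfl⟩
  have hG0 : ∀ (b : P) (q : ℚ), G ((OnePoint.infty, b), yo q) = 0 := by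
    intro b q
    rw [hext ⟨((OnePoint.infty, b), yo q), infty_mem_A b, mem_univ _⟩]
    refine if_neg ?_
    rintro ⟨d, hd, -⟩
    exact absurd hd (OnePoint.infty_ne_coe _)
  -- the sets `E n`
  let E : ℕ → Set P := fun n => {k | ∀ b : P, dist b k < 1 / ((n : ℝ) + 1) →
    1 / 2 < G ((pt k, b), yo k)}
  have hE : ∀ k : P, ∃ n, k ∈ E n := by
    intro k
    have h1 : Continuous fun b : P => G ((pt k, b), yo k) := by fun_prop
    have h2 : ∀ᶠ b in 𝓝 k, 1 / 2 < G ((pt k, b), yo k) := by
      refine (h1.tendsto k).eventually (lt_mem_nhds ?_)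
      rw [hG1]
      norm_num
    obtain ⟨ε, hε, h3⟩ := Metric.eventually_nhds_iff.1 h2
    obtain ⟨n, hn⟩ := exists_nat_one_div_lt hε
    exact ⟨n, fun b hb => h3 (hb.trans hn)⟩
  -- Baire category theorem in the real line
  let F : ℕ ⊕ ℚ → Set ℝ := Sum.elim (fun n => closure (Subtype.val '' E n)) (fun q => {(q : ℝ)})
  have hF : ⋃ i, F i = univ := by
    refine eq_univ_of_forall fun x => ?_
    by_cases hx : Irrational x
    · obtain ⟨n, hn⟩ := hE ⟨x, hx⟩
      exact mem_iUnion.2 ⟨Sum.inl n, subset_closure ⟨_, hn, rfl⟩⟩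
    · unfold Irrational at hx
      rw [not_not] at hx
      obtain ⟨q, rfl⟩ := hx
      exact mem_iUnion.2 ⟨Sum.inr q, rfl⟩
  obtain ⟨i, hi⟩ := nonempty_interior_of_iUnion_of_closed (f := F) (by
    rintro (n | q)
    · exact isClosed_closure
    · exact isClosed_singleton) hF
  rcases i with n | q
  swap
  · simp [F] at hi
  -- a rational number `q` in the interior of the closure of `E n`
  obtain ⟨q, hq⟩ : ∃ q : ℚ, (q : ℝ) ∈ interior (closure (Subtype.val '' E n)) := by
    obtain ⟨_, hx1, q, rfl⟩ := Rat.denseRange_cast.inter_open_nonempty _ isOpen_interior hi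
    exact ⟨q, hx1⟩
  -- an irrational number `b` near `q`
  have hn : (0 : ℝ) < 1 / ((n : ℝ) + 1) / 2 := by positivity
  obtain ⟨b, hb1, hb2⟩ : ∃ b : ℝ, b ∈ Metric.ball (q : ℝ) (1 / ((n : ℝ) + 1) / 2) ∧
      Irrational b := by
    obtain ⟨b, h1, h2⟩ := dense_irrational.inter_open_nonempty _ Metric.isOpen_ball
      ⟨(q : ℝ), Metric.mem_ball_self hn⟩
    exact ⟨b, h1, h2⟩
  let b' : P := ⟨b, hb2⟩
  -- the filter of points of `E n` converging to `q`
  let l : Filter P := comap Subtype.val (𝓝 (q : ℝ)) ⊓ 𝓟 (E n)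
  have hl : NeBot l := by
    have h1 := mem_closure_iff_nhds.1 (interior_subset hq)
    rw [Filter.inf_principal_neBot_iff]
    rintro U ⟨t, ht, htU⟩
    obtain ⟨_, hx1, k, hk, rfl⟩ := h1 t ht
    exact ⟨k, htU hx1, hk⟩
  have hl1 : Tendsto (fun k : P => (k : ℝ)) l (𝓝 (q : ℝ)) := tendsto_comap.mono_left inf_le_left
  have hl2 : Tendsto (fun k : P => yo k) l (𝓝 (yo q)) :=
    (tendsto_yo q (fun h => h ⟨q, rfl⟩)).comp hl1
  have hl3 : Tendsto pt l (𝓝 (OnePoint.infty : K)) := by
    have h1 : Tendsto (fun x : D => (x : OnePoint D)) (coclosedCompact D)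
        (𝓝 (OnePoint.infty : K)) := OnePoint.tendsto_coe_infty
    have h2 : (show Filter D from l) ≤ coclosedCompact D := by
      rw [Filter.coclosedCompact_eq_cocompact, Filter.cocompact_eq_cofinite,
        Filter.le_cofinite_iff_eventually_ne]
      intro d
      have h3 : (q : ℝ) ≠ (show P from d : ℝ) := by
        intro h
        exact (show P from d).2 ⟨q, h⟩
      have h4 : ∀ᶠ k : P in l, (k : ℝ) ≠ (show P from d : ℝ) :=
        hl1.eventually (isOpen_ne.mem_nhds h3)
      exact h4.mono fun k hk hkd => hk (congrArg Subtype.val hkd)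
    exact h1.mono_left h2
  have hl4 : Tendsto (fun k : P => G ((pt k, b'), yo k)) l (𝓝 0) := by
    have h1 : Tendsto (fun k : P => ((pt k, b'), yo k)) l
        (𝓝 (((OnePoint.infty : K), b'), yo (q : ℝ))) :=
      (hl3.prodMk_nhds tendsto_const_nhds).prodMk_nhds hl2
    have h2 := (hG.tendsto (((OnePoint.infty : K), b'), yo (q : ℝ))).comp h1
    rw [hG0] at h2
    exact h2
  have hl5 : ∀ᶠ k in l, 1 / 2 < G ((pt k, b'), yo k) := by
    have h1 : ∀ᶠ k : P in l, k ∈ E n := mem_inf_of_right (mem_principal_self _)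
    have h2 : ∀ᶠ k : P in l, dist (k : ℝ) q < 1 / ((n : ℝ) + 1) / 2 :=
      hl1.eventually (Metric.ball_mem_nhds _ hn)
    filter_upwards [h1, h2] with k hk1 hk2
    refine hk1 b' ?_
    change dist b (k : ℝ) < _
    have h3 := dist_triangle_right b (k : ℝ) (q : ℝ)
    have h4 : dist b (q : ℝ) < 1 / ((n : ℝ) + 1) / 2 := hb1
    linarith
  have hl6 := ge_of_tendsto hl4 (hl5.mono fun k hk => hk.le)
  norm_num at hl6

/-- **Negative answer to Q1.** There are a compact Hausdorff space `K`, a Polish space `P`
(so `K × P` is paracompact and Čech-complete), a closed subset `A` of `X = K × P` which is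
Čech-complete, paracompact and P-embedded in `X`, and a Tychonoff space `Y`, such that
`A × Y` is not P-embedded in `X × Y`: some continuous function `g : A × Y → [0, 1]` has no
continuous real-valued extension over `X × Y`. -/
theorem result :
    ∃ (K P Y : Type) (_ : TopologicalSpace K) (_ : TopologicalSpace P) (_ : TopologicalSpace Y)
      (A : Set (K × P)),
      CompactSpace K ∧ T2Space K ∧ PolishSpace P ∧ T35Space Y ∧ IsClosed A ∧
      CechComplete A ∧ ParacompactSpace A ∧ PEmbedded.{0, v} A ∧
      ¬ PEmbedded.{0, v} (A ×ˢ (univ : Set Y)) ∧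
      ∃ g : ↥(A ×ˢ (univ : Set Y)) → ℝ, Continuous g ∧ (∀ p, 0 ≤ g p ∧ g p ≤ 1) ∧
        ¬ ∃ G : (K × P) × Y → ℝ, Continuous G ∧ ∀ p : ↥(A ×ˢ (univ : Set Y)), G p = g p := by
  refine ⟨K, P, Y, inferInstance, inferInstance, inferInstance, A, inferInstance, inferInstance,
    polishSpace_P, inferInstance, isClosed_A, cechComplete_A,
    isClosed_A.isClosedEmbedding_subtypeVal.paracompactSpace, pEmbedded_of_isClosed isClosed_A,
    ?_, g, continuous_g, ?_, ?_⟩
  · intro h
    obtain ⟨G, hG1, hG2⟩ := h (ULift.{v} ℝ) (fun p => ULift.up (g p))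
      (continuous_uliftUp.comp continuous_g)
    refine no_extension (fun p => (G p).down) (continuous_uliftDown.comp hG1) fun p => ?_
    rw [hG2]
  · intro p
    classical
    unfold g
    split_ifs <;> norm_num
  · rintro ⟨G, hG1, hG2⟩
    exact no_extension G hG1 hG2

end Pool.Agent.Results.MP_4b6139_gt.CechCompleteCounterexample
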